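import Mathlib

open Finset

set_option linter.unusedSectionVars false

namespace Pool.Agent.Results.MP_7e79aa_co.Yes

section defs
variable {V : Type} [DecidableEq V]

/-- A pebbling move along an edge `uv`: two pebbles off `u`, one pebble on `v`. -/
def Move (G : SimpleGraph V) (c c' : V → ℕ) : Prop :=
  ∃ u v, G.Adj u v ∧ 2 ≤ c u ∧
    c' = fun w => c w - (if w = u then 2 else 0) + (if w = v then 1 else 0)

/-- strong hub set -/
def StrongHub (G : SimpleGraph V) (U : Set V) : Prop :=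
  U.Nonempty ∧ ∀ x y, x ≠ y → ∃ p : G.Walk x y, p.IsPath ∧
    ∀ z ∈ p.support, z ≠ x → z ≠ y → z ∈ U

/-- From every configuration with `t` pebbles some strong hub set can be covered. -/
def Suffices [Fintype V] (G : SimpleGraph V) (t : ℕ) : Prop :=
  ∀ c : V → ℕ, ∑ v, c v = t → ∃ c', Relation.ReflTransGen (Move G) c c' ∧
    ∃ U, StrongHub G U ∧ ∀ v ∈ U, 1 ≤ c' v

end defs

/-- the conjectured value -/
def conj (n : ℕ) : ℕ :=
  if n % 2 = 0 then 2 ^ (n / 2) + 2 ^ (n / 2 - 1) - 3 else 2 ^ (n / 2 + 1) - 3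

variable {V : Type} [DecidableEq V] {G : SimpleGraph V}

abbrev Reach (G : SimpleGraph V) := Relation.ReflTransGen (Move G)

lemma Move.add {c c' : V → ℕ} (h : Move G c c') (w : V → ℕ) : Move G (c + w) (c' + w) := by
  obtain ⟨u, v, h1, h2, rfl⟩ := h
  refine ⟨u, v, h1, by simp only [Pi.add_apply]; omega, ?_⟩
  funext z
  simp only [Pi.add_apply]
  by_cases e : z = u
  · subst e; simp only [if_true]; omega
  · simp only [if_neg e]; omega

lemma reach_add {c c' : V → ℕ} (h : Reach G c c') (w : V → ℕ) : Reach G (c + w) (c' + w) := by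
  induction h with
  | refl => exact .refl
  | tail _ h ih => exact ih.tail (h.add w)

def Cov (G : SimpleGraph V) (c z : V → ℕ) : Prop := ∃ c', Reach G c c' ∧ z ≤ c'

lemma Cov.of_le {c z : V → ℕ} (h : z ≤ c) : Cov G c z := ⟨c, .refl, h⟩

lemma Cov.add_right {c z : V → ℕ} (h : Cov G c z) (w : V → ℕ) : Cov G (c + w) (z + w) := by
  obtain ⟨c', h1, h2⟩ := h
  exact ⟨c' + w, reach_add h1 w, add_le_add h2 le_rfl⟩

lemma Cov.frame {c z y : V → ℕ} (h : Cov G c z) (hy : c ≤ y) : Cov G y (z + (y - c)) := by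
  have := h.add_right (y - c)
  rwa [add_tsub_cancel_of_le hy] at this

lemma Cov.trans {a b c : V → ℕ} (h1 : Cov G a b) (h2 : Cov G b c) : Cov G a c := by
  obtain ⟨a', h3, h4⟩ := h1
  obtain ⟨b', h5, h6⟩ := h2.frame h4
  exact ⟨b', h3.trans h5, le_trans le_self_add h6⟩

lemma Cov.add {a b c d : V → ℕ} (h1 : Cov G a b) (h2 : Cov G c d) : Cov G (a + c) (b + d) := by
  have := h2.add_right b
  rw [add_comm c, add_comm d] at this
  exact (h1.add_right c).trans this

def sg (v : V) (k : ℕ) : V → ℕ := Pi.single v k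

lemma sg_add (v : V) (a b : ℕ) : sg v (a + b) = sg v a + sg v b := Pi.single_add _ _ _

lemma sg_apply (v w : V) (k : ℕ) : sg v k w = if w = v then k else 0 := Pi.single_apply _ _ _

lemma sg_le (v : V) {a b : ℕ} (h : a ≤ b) : sg v a ≤ sg v b := by
  intro w; simp only [sg_apply]; split_ifs <;> omega

lemma cov_step {u v : V} (h : G.Adj u v) (j : ℕ) : Cov G (sg u (2 * j)) (sg v j) := by
  induction j with
  | zero => exact Cov.of_le (fun w => by simp [sg_apply])
  | succ j ih =>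
    rw [mul_add, sg_add, sg_add]
    refine ih.add ⟨_, .single ⟨u, v, h, by simp [sg_apply], rfl⟩, fun w => ?_⟩
    simp only [sg_apply]; split_ifs <;> omega

lemma sum_sg_first (ψ : ℕ → V) (x : ℕ → ℕ) (m k : ℕ) :
    ∑ i ∈ range (m + 1), sg (ψ i) (x i + if i = 0 then k else 0) =
      ∑ i ∈ range (m + 1), sg (ψ i) (x i) + sg (ψ 0) k := by
  rw [sum_range_succ', sum_range_succ' (fun i => sg (ψ i) (x i))]
  simp [sg_add, add_assoc]

lemma sum_sg_last (ψ : ℕ → V) (x : ℕ → ℕ) (m k : ℕ) :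
    ∑ i ∈ range (m + 1), sg (ψ i) (x i + if i = m then k else 0) =
      ∑ i ∈ range (m + 1), sg (ψ i) (x i) + sg (ψ m) k := by
  rw [sum_range_succ, sum_range_succ (fun i => sg (ψ i) (x i)), if_pos rfl, sg_add, add_assoc]
  congr 1
  refine sum_congr rfl (fun i hi => ?_)
  rw [if_neg (by simp at hi; omega), add_zero]

/-- covering a path, with `a` spare pebbles on its first vertex -/
lemma path_cov (m : ℕ) : ∀ (ψ : ℕ → V) (x : ℕ → ℕ) (a : ℕ), (∀ i, G.Adj (ψ i) (ψ (i + 1))) →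
    2 ^ (m + 1) + a * 2 ^ m ≤ 1 + ∑ i ∈ range (m + 1), x i →
    Cov G (∑ i ∈ range (m + 1), sg (ψ i) (x i))
      (∑ i ∈ range (m + 1), sg (ψ i) 1 + sg (ψ 0) a) := by
  induction m with
  | zero =>
    intro ψ x a _ h
    simp only [zero_add, range_one, sum_singleton, ← sg_add] at h ⊢
    exact Cov.of_le (sg_le _ (by omega))
  | succ m ih =>
    intro ψ x a hψ h
    rw [sum_range_succ'] at h
    rw [sum_range_succ' (fun i => sg (ψ i) (x i)), sum_range_succ' (fun i => sg (ψ i) 1),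
      add_assoc, ← sg_add]
    have hp : 0 < 2 ^ m := by positivity
    by_cases hx : 1 + a ≤ x 0
    · obtain ⟨j, hj⟩ : ∃ j, j = (x 0 - (1 + a)) / 2 := ⟨_, rfl⟩
      have h1 := ih (fun i => ψ (i + 1)) (fun i => x (i + 1) + if i = 0 then j else 0) 0
        (fun i => hψ _) (by
          rw [sum_add_distrib, sum_ite_eq']
          simp only [mem_range, Nat.zero_lt_succ, if_true, pow_succ] at h ⊢
          have : a ≤ a * (2 ^ m * 2) := Nat.le_mul_of_pos_right _ (by omega)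
          omega)
      rw [sum_sg_first] at h1
      have h2 := ((Cov.of_le (G := G) (le_refl (∑ i ∈ range (m + 1), sg (ψ (i + 1)) (x (i + 1))))).add
        (cov_step (hψ 0) j)).trans (h1.trans (Cov.of_le le_self_add))
      refine (Cov.of_le ?_).trans (h2.add_right (sg (ψ 0) (1 + a)))
      rw [add_assoc, ← sg_add]
      exact add_le_add le_rfl (sg_le _ (by omega))
    · obtain ⟨j, hj⟩ : ∃ j, 1 + a = x 0 + j := ⟨1 + a - x 0, by omega⟩
      have h1 := ih (fun i => ψ (i + 1)) (fun i => x (i + 1)) (2 * j) (fun i => hψ _) (by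
          simp only [pow_succ] at h ⊢
          have e : (1 + a) * (2 ^ m * 2) = (x 0 + j) * (2 ^ m * 2) := by rw [hj]
          have : x 0 ≤ x 0 * (2 ^ m * 2) := Nat.le_mul_of_pos_right _ (by omega)
          nlinarith)
      have h2 := h1.trans ((Cov.of_le (G := G) (le_refl (∑ i ∈ range (m + 1), sg (ψ (i + 1)) 1))).add
        (cov_step (hψ 0).symm j))
      have h3 := h2.add_right (sg (ψ 0) (x 0))
      rwa [add_assoc, ← sg_add, add_comm j, ← hj] at h3

lemma arm_cov (l : ℕ) (ψ : ℕ → V) (x : ℕ → ℕ) (h e : ℕ) (hψ : ∀ i, G.Adj (ψ i) (ψ (i + 1)))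
    (hb : 2 ^ l ≤ 1 + h + ∑ i ∈ range l, x i + e / 2) :
    Cov G (∑ i ∈ range l, sg (ψ (i + 1)) (x i) + sg (ψ (l + 1)) e + sg (ψ 0) (2 * h))
      (∑ i ∈ range l, sg (ψ (i + 1)) 1) := by
  cases l with
  | zero => exact Cov.of_le (fun w => by simp)
  | succ m =>
    have h1 := path_cov m (fun i => ψ (i + 1))
      (fun i => (x i + if i = m then e / 2 else 0) + if i = 0 then h else 0) 0 (fun i => hψ _) (by
        rw [sum_add_distrib, sum_add_distrib, sum_ite_eq', sum_ite_eq']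
        simp only [mem_range, Nat.zero_lt_succ, Nat.lt_succ_self, if_true]
        omega)
    rw [sum_sg_first, sum_sg_last] at h1
    refine Cov.trans ?_ (h1.trans (Cov.of_le le_self_add))
    refine ((Cov.of_le le_rfl).add ?_).add (cov_step (hψ 0) h)
    exact (Cov.of_le (sg_le _ (by omega))).trans (cov_step (hψ (m + 1)).symm (e / 2))

lemma sum_sg_apply (ψ : ℕ → V) (g : ℕ → ℕ) (l : ℕ) (hinj : ∀ i < l, ∀ j < l, ψ i = ψ j → i = j)
    (j : ℕ) (hj : j < l) : (∑ i ∈ range l, sg (ψ i) (g i)) (ψ j) = g j := by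
  rw [Finset.sum_apply, sum_eq_single j]
  · simp [sg_apply]
  · intro i hi hne
    rw [sg_apply, if_neg (fun e => hne (hinj i (mem_range.mp hi) j hj e.symm))]
  · intro h; exact absurd (mem_range.mpr hj) h

lemma sum_sg_out (ψ : ℕ → V) (g : ℕ → ℕ) (l : ℕ) (v : V) (hv : ∀ i < l, ψ i ≠ v) :
    (∑ i ∈ range l, sg (ψ i) (g i)) v = 0 := by
  rw [Finset.sum_apply]
  exact sum_eq_zero (fun i hi => by rw [sg_apply, if_neg (hv i (mem_range.mp hi)).symm])

lemma arm (l : ℕ) (ψ : ℕ → V) (y : V → ℕ) (h e : ℕ) (hψ : ∀ i, G.Adj (ψ i) (ψ (i + 1)))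
    (hinj : ∀ i < l + 2, ∀ j < l + 2, ψ i = ψ j → i = j)
    (h1 : 2 * h ≤ y (ψ 0)) (h2 : e ≤ y (ψ (l + 1)))
    (hb : 2 ^ l ≤ 1 + h + ∑ i ∈ range l, y (ψ (i + 1)) + e / 2) :
    ∃ y', Reach G y y' ∧ (∀ i < l, 1 ≤ y' (ψ (i + 1))) ∧ y (ψ 0) - 2 * h ≤ y' (ψ 0) ∧
      y (ψ (l + 1)) - e ≤ y' (ψ (l + 1)) ∧ ∀ v, (∀ i < l + 2, ψ i ≠ v) → y v ≤ y' v := by
  have hc := arm_cov l ψ (fun i => y (ψ (i + 1))) h e hψ hb
  let g : ℕ → ℕ := fun i => if i = 0 then 2 * h else if i = l + 1 then e else y (ψ i)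
  have e1 : ∑ i ∈ range l, sg (ψ (i + 1)) (y (ψ (i + 1))) + sg (ψ (l + 1)) e + sg (ψ 0) (2 * h) =
      ∑ i ∈ range (l + 2), sg (ψ i) (g i) := by
    rw [sum_range_succ' _ (l + 1), sum_range_succ]
    simp only [g, if_true, Nat.add_one_ne_zero, if_false]
    congr 2
    refine sum_congr rfl (fun i hi => ?_)
    rw [if_neg (by simp at hi; omega)]
  rw [e1] at hc
  have hle : ∑ i ∈ range (l + 2), sg (ψ i) (g i) ≤ y := by
    intro v
    by_cases hv : ∃ j < l + 2, ψ j = v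
    · obtain ⟨j, hj, rfl⟩ := hv
      rw [sum_sg_apply ψ g _ hinj j hj]
      simp only [g]
      split_ifs with a b
      · rw [a]; exact h1
      · rw [b]; exact h2
      · exact le_rfl
    · push Not at hv
      rw [sum_sg_out ψ g _ v hv]; exact Nat.zero_le _
  obtain ⟨y', h3, h4⟩ := hc.frame hle
  refine ⟨y', h3, fun i hi => ?_, ?_, ?_, fun v hv => ?_⟩
  · have := h4 (ψ (i + 1))
    rw [Pi.add_apply, sum_sg_apply (fun i => ψ (i + 1)) (fun _ => 1) l
      (fun i hi j hj e => by have := hinj _ (by omega) _ (by omega) e; omega) i hi] at this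
    exact le_trans (Nat.le_add_right _ _) this
  · have := h4 (ψ 0)
    rw [Pi.add_apply, Pi.sub_apply, sum_sg_apply ψ g _ hinj 0 (by omega)] at this
    simp only [g, if_true] at this
    omega
  · have := h4 (ψ (l + 1))
    rw [Pi.add_apply, Pi.sub_apply, sum_sg_apply ψ g _ hinj (l + 1) (by omega)] at this
    simp only [g, if_true, Nat.add_one_ne_zero, if_false] at this
    omega
  · have := h4 v
    rw [Pi.add_apply, Pi.sub_apply, sum_sg_out ψ g _ v hv, Nat.sub_zero] at this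
    exact le_trans (Nat.le_add_left _ _) this

/-! ### tours of a cycle -/

structure Tour (G : SimpleGraph V) (n : ℕ) (φ : ℤ → V) : Prop where
  adj : ∀ i, G.Adj (φ i) (φ (i + 1))
  per : ∀ i, φ (i + n) = φ i
  inj : ∀ i j, φ i = φ j → i - j < n → j - i < n → i = j
  surj : ∀ (s : ℤ) v, ∃ i : ℤ, s ≤ i ∧ i < s + n ∧ φ i = v

lemma Tour.shift {n : ℕ} {φ : ℤ → V} (T : Tour G n φ) (s : ℤ) : Tour G n (fun i => φ (s + i)) where
  adj i := by rw [← add_assoc]; exact T.adj _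
  per i := by rw [← add_assoc]; exact T.per _
  inj i j h h1 h2 := by have := T.inj _ _ h (by omega) (by omega); omega
  surj r v := by
    obtain ⟨i, h1, h2, h3⟩ := T.surj (s + r) v
    exact ⟨i - s, by omega, by omega, by simpa using h3⟩

lemma Tour.neg {n : ℕ} {φ : ℤ → V} (T : Tour G n φ) : Tour G n (fun i => φ (-i)) where
  adj i := by
    have := (T.adj (-(i + 1))).symm
    rwa [show -(i + 1) + 1 = -i by ring] at this
  per i := by
    have := T.per (-(i + n))
    rw [show -(i + (n : ℤ)) + n = -i by ring] at this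
    exact this.symm
  inj i j h h1 h2 := by have := T.inj _ _ h (by omega) (by omega); omega
  surj r v := by
    obtain ⟨i, h1, h2, h3⟩ := T.surj (-r - n + 1) v
    exact ⟨-i, by omega, by omega, by simpa using h3⟩

def Goal (G : SimpleGraph V) (y : V → ℕ) : Prop :=
  ∃ y', Reach G y y' ∧ ∃ U, StrongHub G U ∧ ∀ v ∈ U, 1 ≤ y' v

lemma Tour.walk {n : ℕ} {φ : ℤ → V} (T : Tour G n φ) (i : ℤ) (m : ℕ) :
    ∃ w : G.Walk (φ i) (φ (i + m)), ∀ z ∈ w.support, ∃ k, i ≤ k ∧ k ≤ i + m ∧ z = φ k := by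
  induction m with
  | zero => exact ⟨SimpleGraph.Walk.nil.copy rfl (by simp), fun z hz => ⟨i, le_rfl, by simp, by simpa using hz⟩⟩
  | succ m ih =>
    obtain ⟨w, hw⟩ := ih
    refine ⟨(w.concat (T.adj _)).copy rfl (by push_cast; rw [add_assoc]), fun z hz => ?_⟩
    simp only [SimpleGraph.Walk.support_copy, SimpleGraph.Walk.support_concat, 
      List.mem_append, List.mem_singleton] at hz
    rcases hz with hz | hz
    · obtain ⟨k, h1, h2, h3⟩ := hw z hz
      exact ⟨k, h1, by push_cast; omega, h3⟩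
    · exact ⟨i + m + 1, by omega, by push_cast; omega, hz⟩

lemma Tour.goal {n : ℕ} {φ : ℤ → V} (T : Tour G n φ) (hn : 3 ≤ n) {y y' : V → ℕ}
    (h : Reach G y y') (s : ℤ) (hc : ∀ j, s ≤ j → j < s + n - 2 → 1 ≤ y' (φ j)) : Goal G y := by
  refine ⟨y', h, {v | ∃ j, s ≤ j ∧ j < s + n - 2 ∧ v = φ j}, ⟨⟨φ s, s, le_rfl, by omega, rfl⟩, ?_⟩, ?_⟩
  · have key : ∀ i j, s - 1 ≤ i → i ≤ j → j < s - 1 + n → ∃ w : G.Walk (φ i) (φ j),
        ∀ z ∈ w.support, z ≠ φ i → z ≠ φ j → ∃ k, s ≤ k ∧ k < s + n - 2 ∧ z = φ k := by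
      intro i j h1 h2 h3
      obtain ⟨m, rfl⟩ : ∃ m : ℕ, j = i + m := ⟨(j - i).toNat, by omega⟩
      obtain ⟨w, hw⟩ := T.walk i m
      refine ⟨w, fun z hz e1 e2 => ?_⟩
      obtain ⟨k, h4, h5, rfl⟩ := hw z hz
      have : k ≠ i := fun e => e1 (by rw [e])
      have : k ≠ i + m := fun e => e2 (by rw [e])
      exact ⟨k, by omega, by omega, rfl⟩
    intro x z _
    obtain ⟨i, h1, h2, rfl⟩ := T.surj (s - 1) x
    obtain ⟨j, h3, h4, rfl⟩ := T.surj (s - 1) z
    rcases le_total i j with e | e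
    · obtain ⟨w, hw⟩ := key i j h1 e h4
      exact ⟨w.bypass, w.bypass_isPath, fun z hz => hw z (w.support_bypass_subset_support hz)⟩
    · obtain ⟨w, hw⟩ := key j i h3 e h2
      refine ⟨w.reverse.bypass, w.reverse.bypass_isPath, fun z hz e1 e2 => hw z ?_ e2 e1⟩
      simpa using w.reverse.support_bypass_subset_support hz
  · rintro v ⟨j, h1, h2, rfl⟩
    exact hc j h1 h2

/-- window sums -/
def W (y : V → ℕ) (φ : ℤ → V) (s : ℤ) (l : ℕ) : ℕ := ∑ i ∈ range l, y (φ (s + i))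

lemma W_succ (y : V → ℕ) (φ : ℤ → V) (s : ℤ) (l : ℕ) :
    W y φ s (l + 1) = W y φ s l + y (φ (s + l)) := sum_range_succ _ _

lemma W_add (y : V → ℕ) (φ : ℤ → V) (s : ℤ) (a b : ℕ) :
    W y φ s (a + b) = W y φ s a + W y φ (s + a) b := by
  unfold W
  rw [sum_range_add]
  simp only [Nat.cast_add, add_assoc]

lemma W_succ' (y : V → ℕ) (φ : ℤ → V) (s : ℤ) (l : ℕ) :
    W y φ s (l + 1) = y (φ s) + W y φ (s + 1) l := by
  rw [add_comm l, W_add]; simp [W]

lemma W_neg (y : V → ℕ) (φ : ℤ → V) (s : ℤ) (l : ℕ) :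
    W y (fun i => φ (-i)) s l = W y φ (-s - l + 1) l := by
  induction l with
  | zero => rfl
  | succ l ih =>
    rw [W_succ, W_succ', ih, add_comm]
    congr 2
    · push_cast; ring_nf
    · push_cast; ring

lemma W_shift (y : V → ℕ) (φ : ℤ → V) (r s : ℤ) (l : ℕ) :
    W y (fun i => φ (r + i)) s l = W y φ (r + s) l := by
  simp only [W, add_assoc]

lemma W_per {n : ℕ} {φ : ℤ → V} (T : Tour G n φ) (y : V → ℕ) (s : ℤ) (l : ℕ) :
    W y φ (s + n) l = W y φ s l := by
  unfold W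
  refine sum_congr rfl (fun i _ => ?_)
  rw [← T.per (s + i)]; congr 2; ring

lemma W_total [Fintype V] {n : ℕ} {φ : ℤ → V} (T : Tour G n φ) (y : V → ℕ) (s : ℤ) :
    W y φ s n = ∑ v, y v := by
  unfold W
  refine sum_bij (fun i _ => φ (s + i)) (fun _ _ => mem_univ _) ?_ ?_ (fun _ _ => rfl)
  · intro i hi j hj e
    have := T.inj _ _ e (by simp at hi hj; omega) (by simp at hi hj; omega)
    omega
  · intro v _
    obtain ⟨i, h1, h2, rfl⟩ := T.surj s v
    exact ⟨(i - s).toNat, by simp; omega, by congr 1; omega⟩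

lemma Tour.armR {n : ℕ} {φ : ℤ → V} (T : Tour G n φ) (y : V → ℕ) (q h e : ℕ) (hq : q + 2 ≤ n)
    (h1 : 2 * h ≤ y (φ 0)) (h2 : e ≤ y (φ (1 + q)))
    (hb : 2 ^ q ≤ 1 + h + W y φ 1 q + e / 2) :
    ∃ y', Reach G y y' ∧ (∀ j : ℤ, 1 ≤ j → j ≤ q → 1 ≤ y' (φ j)) ∧ y (φ 0) - 2 * h ≤ y' (φ 0) ∧
      y (φ (1 + q)) - e ≤ y' (φ (1 + q)) ∧
      ∀ j : ℤ, j < 0 → 1 + q - n < j → y (φ j) ≤ y' (φ j) := by
  have e1 : ((q + 1 : ℕ) : ℤ) = 1 + q := by push_cast; ring
  obtain ⟨y', h3, h4, h5, h6, h7⟩ := arm (G := G) q (fun i => φ i) y h e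
    (fun i => by push_cast; exact T.adj _)
    (fun i hi j hj e => by have := T.inj _ _ e (by omega) (by omega); omega) h1
    (by simp only [e1]; exact h2) (by
      unfold W at hb
      simpa only [Nat.cast_add, Nat.cast_one, add_comm (1 : ℤ)] using hb)
  simp only [e1] at h6
  refine ⟨y', h3, fun j a b => ?_, h5, h6, fun j a b => h7 _ (fun i hi e => ?_)⟩
  · have := h4 (j - 1).toNat (by omega)
    rwa [show (((j - 1).toNat + 1 : ℕ) : ℤ) = j by omega] at this
  · have := T.inj _ _ e (by omega) (by omega)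
    omega

lemma W_mono (y y' : V → ℕ) (φ : ℤ → V) (s : ℤ) (l : ℕ)
    (h : ∀ j, s ≤ j → j < s + l → y (φ j) ≤ y' (φ j)) : W y φ s l ≤ W y' φ s l :=
  sum_le_sum (fun i hi => h _ (by omega) (by simp at hi; omega))

/-- two arms from the root `φ 0` -/
lemma Tour.root {n : ℕ} {φ : ℤ → V} (T : Tour G n φ) (y : V → ℕ) (p q hL hR eL eR : ℕ)
    (hn : p + q + 3 ≤ n) (h0 : 1 + 2 * hL + 2 * hR ≤ y (φ 0))
    (h1 : eL ≤ y (φ (-1 - p))) (h2 : eR ≤ y (φ (1 + q)))
    (bL : 2 ^ p ≤ 1 + hL + W y φ (-p) p + eL / 2) (bR : 2 ^ q ≤ 1 + hR + W y φ 1 q + eR / 2) :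
    ∃ y', Reach G y y' ∧ (∀ j : ℤ, -p ≤ j → j ≤ q → 1 ≤ y' (φ j)) ∧
      y (φ (-1 - p)) - eL ≤ y' (φ (-1 - p)) ∧ y (φ (1 + q)) - eR ≤ y' (φ (1 + q)) ∧
      ∀ j : ℤ, j < -1 - p → 1 + q - n < j → y (φ j) ≤ y' (φ j) := by
  obtain ⟨y1, r1, a1, a2, a3, a4⟩ := T.armR y q hR eR (by omega) (by omega) h2 bR
  have e1 : -(1 + (p : ℤ)) = -1 - p := by ring
  have a5 := a4 (-1 - p) (by omega) (by omega)
  obtain ⟨y2, r2, b1, b2, b3, b4⟩ := T.neg.armR y1 p hL eL (by omega)
    (by simp only [neg_zero]; omega) (by simp only [e1]; omega) (by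
      rw [W_neg, show -(1 : ℤ) - p + 1 = -p by ring]
      have := W_mono y y1 φ (-p) p (fun j a b => a4 j (by omega) (by omega))
      omega)
  simp only [neg_zero, e1] at b2 b3
  refine ⟨y2, r1.trans r2, fun j c1 c2 => ?_, by omega, ?_, fun j c1 c2 => ?_⟩
  · rcases lt_trichotomy j 0 with c | rfl | c
    · simpa using b1 (-j) (by omega) (by omega)
    · omega
    · have := b4 (-j) (by omega) (by omega)
      simp only [neg_neg] at this
      exact (a1 j (by omega) c2).trans this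
  · have := b4 (-(1 + q)) (by omega) (by omega)
    simp only [neg_neg] at this
    exact a3.trans this
  · have := b4 (-(j + n)) (by omega) (by omega)
    simp only [neg_neg, T.per] at this
    exact (a4 j (by omega) c2).trans this

lemma Tour.goalA {n : ℕ} {φ : ℤ → V} (T : Tour G n φ) (y : V → ℕ) (p q hL hR : ℕ)
    (hn : p + q + 3 = n) (h0 : 1 + 2 * hL + 2 * hR ≤ y (φ 0))
    (bL : 2 ^ p ≤ 1 + hL + W y φ (-p) p + y (φ (-1 - p)) / 2)
    (bR : 2 ^ q ≤ 1 + hR + W y φ 1 q + y (φ (1 + q)) / 2) : Goal G y := by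
  obtain ⟨y', r, a, -⟩ := T.root y p q hL hR _ _ hn.le h0 le_rfl le_rfl bL bR
  exact T.goal (by omega) r (-p) (fun j c1 c2 => a j c1 (by omega))

lemma Tour.problem {n : ℕ} {φ : ℤ → V} (T : Tour G n φ) (y : V → ℕ) (p q : ℕ)
    (hn : p + q + 3 = n) (hpq : p ≤ q + 1) (hqp : q ≤ p + 1)
    (hodd : y (φ (-1 - p)) % 2 = 1) (hL : y (φ (-1 - p)) + 2 ≤ 2 ^ (p + 1))
    (hR : W y φ 1 (q + 1) + 2 ≤ 2 ^ (q + 1))
    (htot : y (φ 0) + y (φ (-1 - p)) + W y φ 1 (q + 1) + 3 = 2 ^ (p + 1) + 2 ^ (q + 1)) :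
    Goal G y := by
  have hs := W_succ y φ 1 q
  have hp1 : 1 ≤ p := by
    rcases p with _ | p
    · omega
    · omega
  -- option B
  by_cases cB : 1 ≤ q ∧ W y φ 1 (q + 1) + 1 ≤ 2 ^ q
  · obtain ⟨q, rfl⟩ : ∃ r, q = r + 1 := ⟨q - 1, by omega⟩
    have hq : 0 < 2 ^ q := by positivity
    obtain ⟨y', r, a, b, -⟩ := T.root y p q (2 ^ p - 1 - (y (φ (-1 - p)) - 1) / 2) (2 ^ q - 1)
      (y (φ (-1 - p)) - 1) 0 (by omega) (by simp only [pow_succ] at *; omega) (by omega)
      (by omega) (by omega) (by omega)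
    refine T.goal (by omega) r (-1 - p) (fun j c1 c2 => ?_)
    rcases c1.eq_or_lt with rfl | c1
    · omega
    · exact a j (by omega) (by omega)
  by_cases cE : 2 ≤ q ∧ 2 * W y φ 1 (q + 1) + 2 ≤ 3 * 2 ^ q
  · obtain ⟨q, rfl⟩ : ∃ r, q = r + 2 := ⟨q - 2, by omega⟩
    have hq : 0 < 2 ^ q := by positivity
    by_cases cb : y (φ (1 + (q + 2 : ℕ))) = 0
    · refine T.goalA y p (q + 2) (2 ^ p - 1 - y (φ (-1 - p)) / 2)
        (2 ^ (q + 2) - 1 - W y φ 1 (q + 2)) hn ?_ (by omega) (by omega)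
      simp only [pow_succ] at *; omega
    · obtain ⟨y', r, a, b, -, c⟩ := T.root y p q (2 ^ p - 1 - (y (φ (-1 - p)) - 1) / 2) (2 ^ q - 1)
        (y (φ (-1 - p)) - 1) 0 (by omega) (by simp only [pow_succ] at *; omega) (by omega)
        (by omega) (by omega) (by omega)
      refine T.goal (by omega) r (-2 - p) (fun j c1 c2 => ?_)
      rcases c1.eq_or_lt with rfl | c1
      · have := c (-2 - p) (by omega) (by omega)
        rw [show (1 : ℤ) + (q + 2 : ℕ) = -2 - p + n by omega, T.per] at cb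
        omega
      · by_cases e : j = -1 - p
        · rw [e]; omega
        · exact a j (by omega) (by omega)
  have D : ∀ p' h, p = p' + 1 → 2 * h + 2 * 2 ^ p' ≤ y (φ (-1 - p)) + 1 →
      2 ^ (q + 1) ≤ 1 + h + W y φ 1 (q + 1) + y (φ 0) / 2 → Goal G y := by
    rintro p' h rfl c1 c2
    have hp : 0 < 2 ^ p' := by positivity
    refine (T.shift (-1 - (p' + 1 : ℕ))).goalA y (q + 1) p' h (2 ^ p' - 1) (by omega)
      (by simp only [add_zero]; omega) ?_ (by omega)
    rw [W_shift, ← W_per T, ← T.per (-1 - (p' + 1 : ℕ) + (-1 - (q + 1 : ℕ))),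
      show -1 - ((p' + 1 : ℕ) : ℤ) + -((q + 1 : ℕ) : ℤ) + n = 1 by omega,
      show -1 - ((p' + 1 : ℕ) : ℤ) + (-1 - ((q + 1 : ℕ) : ℤ)) + n = 0 by omega]
    exact c2
  rcases hp1.eq_or_lt with rfl | hp2
  · have : q = 0 ∨ q = 1 ∨ q = 2 := by omega
    apply D 0 0 rfl (by omega)
    rcases this with rfl | rfl | rfl <;> omega
  obtain ⟨p, rfl⟩ : ∃ r, p = r + 2 := ⟨p - 2, by omega⟩
  have hp : 0 < 2 ^ p := by positivity
  have hrel : (q = 1 ∧ p = 0) ∨ (2 ≤ q ∧ 2 ^ q ≤ 8 * 2 ^ p) := by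
    by_cases c : 2 ≤ q
    · refine Or.inr ⟨c, ?_⟩
      calc 2 ^ q ≤ 2 ^ (p + 3) := Nat.pow_le_pow_right (by omega) (by omega)
        _ = _ := by ring
    · omega
  by_cases cC : 2 * 2 ^ p ≤ y (φ 0) + 1
  · have e : φ (1 + (q + 1 : ℕ)) = φ (-1 - (p + 2 : ℕ)) := by
      rw [← T.per (-1 - (p + 2 : ℕ))]; congr 1; omega
    obtain ⟨y', r, a, -, b, -⟩ := T.root y p (q + 1) (2 ^ p - 1)
      (2 ^ (q + 1) - 1 - W y φ 1 (q + 1) - (y (φ (-1 - (p + 2 : ℕ))) - 1) / 2) 0
      (y (φ (-1 - (p + 2 : ℕ))) - 1) (by omega) (by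
        rcases hrel with ⟨rfl, rfl⟩ | ⟨c1, c2⟩
        · omega
        · simp only [pow_succ] at *; omega) (by omega) (by rw [e]; omega) (by omega) (by omega)
    refine T.goal (by omega) r (-p) (fun j c1 c2 => ?_)
    by_cases e2 : j = 1 + (q + 1 : ℕ)
    · rw [e2]
      rw [e] at b ⊢
      omega
    · exact a j c1 (by omega)
  · apply D (p + 1) (2 ^ (q + 1) - 1 - W y φ 1 (q + 1) - y (φ 0) / 2) rfl _ (by omega)
    simp only [pow_succ] at *; omega

lemma Tour.balanced {n : ℕ} {φ : ℤ → V} (T : Tour G n φ) (y : V → ℕ) (p q : ℕ)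
    (hn : p + q + 3 = n) (hpq : p ≤ q + 1) (hqp : q ≤ p + 1)
    (hL : W y φ (-1 - p) (p + 1) + 2 ≤ 2 ^ (p + 1))
    (hR : W y φ 1 (q + 1) + 2 ≤ 2 ^ (q + 1))
    (htot : y (φ 0) + W y φ (-1 - p) (p + 1) + W y φ 1 (q + 1) + 3 = 2 ^ (p + 1) + 2 ^ (q + 1)) :
    Goal G y := by
  have s1 := W_succ' y φ (-1 - p) p
  rw [show -1 - (p : ℤ) + 1 = -p by ring] at s1
  have s2 := W_succ y φ 1 q
  by_cases c1 : W y φ (-p) p = 0 ∧ y (φ (-1 - p)) % 2 = 1
  · exact T.problem y p q hn hpq hqp c1.2 (by omega) hR (by omega)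
  by_cases c2 : W y φ 1 q = 0 ∧ y (φ (1 + q)) % 2 = 1
  · have e1 : -(-1 - (q : ℤ)) = 1 + q := by ring
    have e2 : -(1 : ℤ) - (p + 1 : ℕ) + 1 = -1 - p := by push_cast; ring
    refine T.neg.problem y q p (by omega) hqp hpq ?_ ?_ ?_ ?_
    · simp only [e1]; exact c2.2
    · simp only [e1]; omega
    · rw [W_neg, e2]; exact hL
    · rw [W_neg, e2]; simp only [e1, neg_zero]; omega
  refine T.goalA y p q (2 ^ p - 1 - W y φ (-p) p - y (φ (-1 - p)) / 2)
    (2 ^ q - 1 - W y φ 1 q - y (φ (1 + q)) / 2) hn ?_ (by omega) (by omega)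
  simp only [pow_succ] at *; omega

lemma Tour.windows {n : ℕ} {φ : ℤ → V} (T : Tour G n φ) (y : V → ℕ) (u : ℕ) (hu : 1 ≤ u)
    (h1 : 2 * u + 1 ≤ n) (h2 : n ≤ 2 * u + 2) (h : ∀ s, 2 ^ u ≤ 1 + W y φ s u) : Goal G y := by
  obtain ⟨y1, r1, a1, a2, -, a4⟩ := T.armR y u 0 0 (by omega) (by omega) (by omega)
    (by have := h 1; omega)
  obtain ⟨y2, r2, b1, b2, -, b4⟩ := (T.shift 1).neg.armR y1 u 0 0 (by omega) (by omega) (by omega)
    (by
      rw [W_neg (φ := fun i => φ (1 + i)), W_shift]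
      have := h (1 + (-1 - u + 1))
      have := W_mono y y1 φ (1 + (-1 - u + 1)) u (fun j a b => by
        rcases lt_or_eq_of_le (show j ≤ 0 by omega) with c | rfl
        · exact a4 j c (by omega)
        · omega)
      omega)
  refine T.goal (by omega) (r1.trans r2) (1 - u) (fun j c1 c2 => ?_)
  rcases lt_trichotomy j 1 with c | rfl | c
  · simpa using b1 (1 - j) (by omega) (by omega)
  · have := a1 1 le_rfl (by omega)
    simp only [neg_zero, add_zero] at b2
    omega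
  · have := b4 (1 - j) (by omega) (by omega)
    simp only [neg_sub, add_sub_cancel] at this
    exact (a1 j (by omega) (by omega)).trans this

lemma Tour.main [Fintype V] {n : ℕ} {φ : ℤ → V} (T : Tour G n φ) (y : V → ℕ) (p q : ℕ)
    (hn : p + q + 3 = n) (hpq : p ≤ q) (hqp : q ≤ p + 1)
    (htot : ∑ v, y v + 3 = 2 ^ (p + 1) + 2 ^ (q + 1)) : Goal G y := by
  by_cases hw : ∀ s, 2 ^ (p + 1) ≤ 1 + W y φ s (p + 1)
  · exact T.windows y (p + 1) (by omega) (by omega) (by omega) hw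
  push Not at hw
  obtain ⟨s, hs⟩ := hw
  by_contra hcon
  have split : ∀ s : ℤ, ∑ v, y v =
      W y φ s (p + 1) + y (φ (s + (p + 1 : ℕ))) + W y φ (s + (p + 1 + 1 : ℕ)) (q + 1) := by
    intro s
    rw [← W_total T y s, ← W_succ, ← W_add]
    congr 1; omega
  have step : ∀ s : ℤ, W y φ s (p + 1) + 2 ≤ 2 ^ (p + 1) →
      2 ^ (q + 1) < W y φ (s + (p + 1 + 1 : ℕ)) (q + 1) + 2 := by
    intro s h
    by_contra h2
    apply hcon
    have := split s
    refine (T.shift (s + (p + 1 : ℕ))).balanced y p q hn (by omega) hqp ?_ ?_ ?_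
    · rw [W_shift, show s + (p + 1 : ℕ) + (-1 - p) = s by omega]; exact h
    · rw [W_shift, show s + (p + 1 : ℕ) + 1 = s + (p + 1 + 1 : ℕ) by omega]; omega
    · rw [W_shift, W_shift, show s + (p + 1 : ℕ) + (-1 - p) = s by omega,
        show s + (p + 1 : ℕ) + 1 = s + (p + 1 + 1 : ℕ) by omega, add_zero]
      omega
  have all : ∀ k : ℕ, W y φ (s + k) (p + 1) + 2 ≤ 2 ^ (p + 1) := by
    intro k
    induction k with
    | zero => simp only [Nat.cast_zero, add_zero]; omega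
    | succ k ih =>
      have h1 := step _ ih
      have h2 := split (s + k)
      have h3 := W_succ y φ (s + k) (p + 1)
      have h4 := W_succ' y φ (s + k) (p + 1)
      rw [show s + (k + 1 : ℕ) = s + k + 1 by omega]
      omega
  have h1 := step s (by omega)
  have h2 := step _ (all (p + 1 + 1))
  have h3 := split (s + (p + 1 + 1 : ℕ))
  have h4 := W_succ y φ (s + (p + 1 + 1 : ℕ)) (p + 1)
  have h5 := all (p + 1 + 1)
  rcases hpq.eq_or_lt with rfl | h
  · omega
  · obtain rfl : q = p + 1 := by omega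
    simp only [pow_succ] at *
    omega

/-! ### the cycle graph -/

open SimpleGraph

lemma cyc_adj {n : ℕ} (hn : 3 ≤ n) (u v : Fin n) : (cycleGraph n).Adj u v ↔
    (u.val = v.val + 1 ∨ v.val = u.val + 1 ∨ (u.val = 0 ∧ v.val + 1 = n) ∨
      (v.val = 0 ∧ u.val + 1 = n)) := by
  have key : ∀ a b : Fin n, (a - b).val = 1 ↔ (a.val = b.val + 1 ∨ (a.val = 0 ∧ b.val + 1 = n)) := by
    intro a b
    have := a.2
    have := b.2
    rcases le_or_gt b a with h | h
    · rw [Fin.coe_sub_iff_le.mpr h]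
      have : b.val ≤ a.val := h
      omega
    · rw [Fin.coe_sub_iff_lt.mpr h]
      have : a.val < b.val := h
      omega
  rw [cycleGraph_adj', key, key]
  tauto

def phi (n : ℕ) (hn : 3 ≤ n) (i : ℤ) : Fin n :=
  ⟨(i % n).toNat, by
    have := Int.emod_lt_of_pos i (show (0 : ℤ) < n by omega)
    have := Int.emod_nonneg i (show (n : ℤ) ≠ 0 by omega)
    omega⟩

lemma tour (n : ℕ) (hn : 3 ≤ n) : Tour (cycleGraph n) n (phi n hn) where
  adj i := by
    rw [cyc_adj hn]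
    simp only [phi]
    have h1 := Int.emod_lt_of_pos i (show (0 : ℤ) < n by omega)
    have h2 := Int.emod_nonneg i (show (n : ℤ) ≠ 0 by omega)
    rw [← Int.emod_add_emod]
    generalize i % n = r at *
    by_cases e : r + 1 = n
    · rw [e, Int.emod_self]; omega
    · rw [Int.emod_eq_of_lt (by omega) (by omega)]; omega
  per i := by simp [phi]
  inj i j h h1 h2 := by
    simp only [phi, Fin.mk.injEq] at h
    have h3 := Int.emod_nonneg i (show (n : ℤ) ≠ 0 by omega)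
    have h4 := Int.emod_nonneg j (show (n : ℤ) ≠ 0 by omega)
    have h5 : (n : ℤ) ∣ i - j := Int.dvd_of_emod_eq_zero
      (Int.emod_eq_emod_iff_emod_sub_eq_zero.mp (by omega))
    have := Int.eq_zero_of_abs_lt_dvd h5 (by rw [abs_lt]; omega)
    omega
  surj s v := by
    have h1 := Int.emod_lt_of_pos (v.val - s) (show (0 : ℤ) < n by omega)
    have h2 := Int.emod_nonneg (v.val - s) (show (n : ℤ) ≠ 0 by omega)
    refine ⟨s + (v.val - s) % n, by omega, by omega, Fin.ext ?_⟩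
    simp only [phi]
    have := v.2
    rw [Int.add_emod_emod, add_sub_cancel, Int.emod_eq_of_lt (by omega) (by omega)]
    simp

lemma upper (n : ℕ) (hn : 3 ≤ n) : Suffices (cycleGraph n) (conj n) := by
  intro c hc
  unfold conj at hc
  split_ifs at hc with h
  · obtain ⟨p, rfl⟩ : ∃ p, n = 2 * p + 4 := ⟨n / 2 - 2, by omega⟩
    refine (tour _ hn).main c p (p + 1) (by omega) (by omega) le_rfl ?_
    rw [show (2 * p + 4) / 2 = p + 1 + 1 by omega, Nat.add_sub_cancel] at hc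
    have : 0 < 2 ^ p := by positivity
    simp only [pow_succ] at *
    omega
  · obtain ⟨p, rfl⟩ : ∃ p, n = 2 * p + 3 := ⟨n / 2 - 1, by omega⟩
    refine (tour _ hn).main c p p (by omega) le_rfl (by omega) ?_
    rw [show (2 * p + 3) / 2 = p + 1 by omega] at hc
    have : 0 < 2 ^ p := by positivity
    simp only [pow_succ] at *
    omega

/-! ### lower bound -/

def wt (n : ℕ) (i : ℕ) : ℕ := 2 ^ min i (n - i)

lemma pot_move {n : ℕ} (hn : 3 ≤ n) {c c' : Fin n → ℕ} (h : Move (cycleGraph n) c c') :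
    ∑ v, c' v * wt n v ≤ ∑ v, c v * wt n v := by
  obtain ⟨u, v, h1, h2, rfl⟩ := h
  have hw : wt n v ≤ 2 * wt n u := by
    rw [cyc_adj hn] at h1
    unfold wt
    rw [← pow_succ']
    exact Nat.pow_le_pow_right (by omega) (by omega)
  have e : ∀ w : Fin n, (c w - (if w = u then 2 else 0) + (if w = v then 1 else 0)) * wt n w +
      (if w = u then 2 * wt n u else 0) = c w * wt n w + (if w = v then wt n v else 0) := by
    intro w
    have hne := h1.ne
    by_cases e1 : w = u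
    · subst e1
      obtain ⟨k, hk⟩ := Nat.exists_eq_add_of_le h2
      simp [hne, hk, add_mul, add_comm]
    · by_cases e2 : w = v
      · subst e2; simp [e1, add_mul]
      · simp [e1, e2]
  have := congrArg (fun f : Fin n → ℕ => ∑ w, f w) (funext e)
  simp only [sum_add_distrib, sum_ite_eq', mem_univ, if_true] at this
  beta_reduce
  omega

lemma hub_adj {n : ℕ} (hn : 3 ≤ n) {U : Set (Fin n)} (hU : StrongHub (cycleGraph n) U)
    {u v : Fin n} (hu : u ∉ U) (hv : v ∉ U) (h : u.val + 1 < v.val) :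
    u.val = 0 ∧ v.val + 1 = n := by
  by_contra hcon
  have hv2 := v.2
  obtain ⟨z, hz⟩ : ∃ z : Fin n, z.val < u.val ∨ v.val < z.val := by
    by_cases e : u.val = 0
    · exact ⟨⟨n - 1, by omega⟩, Or.inr (by simp only; omega)⟩
    · exact ⟨⟨0, by omega⟩, Or.inl (by simp only; omega)⟩
  have key : ∀ (a b : Fin n) (w : (cycleGraph n).Walk a b), (b.val < u.val ∨ v.val < b.val) →
      u ∉ w.support → v ∉ w.support → ¬ (u.val < a.val ∧ a.val < v.val) := by
    intro a b w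
    induction w with
    | nil => intro h1 _ _; omega
    | @cons a b d hab w ih =>
      intro h1 h2 h3 h4
      simp only [Walk.support_cons, List.mem_cons, not_or] at h2 h3
      apply ih h1 h2.2 h3.2
      have e1 : b.val ≠ u.val := fun e => h2.2 (Fin.ext e ▸ w.start_mem_support)
      have e2 : b.val ≠ v.val := fun e => h3.2 (Fin.ext e ▸ w.start_mem_support)
      rw [cyc_adj hn] at hab
      omega
  obtain ⟨w, -, hw⟩ := hU.2 ⟨u.val + 1, by omega⟩ z (fun e => by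
    have := congrArg Fin.val e; simp only at this; omega)
  refine key _ _ w hz (fun e => hu (hw u e ?_ ?_)) (fun e => hv (hw v e ?_ ?_))
    (by simp only; omega)
  all_goals intro e; have := congrArg Fin.val e; (try simp only at this); omega

lemma geo (k : ℕ) : ∑ i ∈ range k, 2 ^ i + 1 = 2 ^ k := by
  induction k with
  | zero => simp
  | succ k ih => rw [sum_range_succ, pow_succ]; omega

lemma geo' (k : ℕ) : ∑ i ∈ range k, 2 ^ (k - i) + 2 = 2 * 2 ^ k := by
  induction k with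
  | zero => simp
  | succ k ih =>
    rw [sum_range_succ']
    simp only [Nat.add_sub_add_right, Nat.sub_zero, pow_succ]
    omega

lemma wt_total (k r : ℕ) (hr : r ≤ 1) :
    ∑ v : Fin (k + r + k), wt (k + r + k) v + 3 = 2 ^ (k + r) + 2 * 2 ^ k := by
  rw [Fin.sum_univ_eq_sum_range (fun i => wt (k + r + k) i), sum_range_add]
  have e1 : ∑ i ∈ range (k + r), wt (k + r + k) i = ∑ i ∈ range (k + r), 2 ^ i :=
    sum_congr rfl (fun i hi => by
      unfold wt; rw [min_eq_left (by simp at hi; omega)])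
  have e2 : ∑ i ∈ range k, wt (k + r + k) (k + r + i) = ∑ i ∈ range k, 2 ^ (k - i) :=
    sum_congr rfl (fun i hi => by
      unfold wt; rw [min_eq_right (by simp at hi; omega)]; congr 1; omega)
  have := geo (k + r)
  have := geo' k
  omega

lemma hub_wt {n : ℕ} (hn : 3 ≤ n) {U : Set (Fin n)} (hU : StrongHub (cycleGraph n) U)
    (c : Fin n → ℕ) (hc : ∀ v ∈ U, 1 ≤ c v) : conj n ≤ ∑ v, c v * wt n v := by
  classical
  by_cases h3 : n = 3
  · subst h3
    obtain ⟨u, hu⟩ := hU.1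
    have h1 := single_le_sum (f := fun v : Fin 3 => c v * wt 3 v) (fun _ _ => Nat.zero_le _)
      (mem_univ u)
    have h2 : 1 * 1 ≤ c u * wt 3 u := Nat.mul_le_mul (hc u hu) (Nat.one_le_two_pow)
    have : conj 3 = 1 := by decide
    omega
  obtain ⟨a, b, hab, hK⟩ : ∃ a b : Fin n, (b.val = a.val + 1 ∨ (b.val = 0 ∧ a.val + 1 = n)) ∧
      ∀ w, w ∉ U → w = a ∨ w = b := by
    have adj : ∀ u v : Fin n, u ∉ U → v ∉ U → u.val = v.val ∨ u.val = v.val + 1 ∨
        v.val = u.val + 1 ∨ (u.val = 0 ∧ v.val + 1 = n) ∨ (v.val = 0 ∧ u.val + 1 = n) := by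
      intro u v hu hv
      have := hub_adj hn hU hu hv
      have := hub_adj hn hU hv hu
      omega
    by_cases h1 : ∃ u v : Fin n, u ∉ U ∧ v ∉ U ∧
        (v.val = u.val + 1 ∨ (v.val = 0 ∧ u.val + 1 = n))
    · obtain ⟨u, v, hu, hv, e⟩ := h1
      refine ⟨u, v, e, fun w hw => ?_⟩
      have := adj w u hw hu
      have := adj w v hw hv
      have := w.2
      have := v.2
      rw [Fin.ext_iff, Fin.ext_iff]
      omega
    · push Not at h1
      by_cases h2 : ∃ u, u ∉ U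
      · obtain ⟨u, hu⟩ := h2
        have hw : ∀ w, w ∉ U → w = u := by
          intro w hw
          have := adj w u hw hu
          have := h1 w u hw hu
          have := h1 u w hu hw
          rw [Fin.ext_iff]
          omega
        by_cases e : u.val + 1 = n
        · exact ⟨u, ⟨0, by omega⟩, Or.inr ⟨rfl, e⟩, fun w h => Or.inl (hw w h)⟩
        · exact ⟨u, ⟨u.val + 1, by have := u.2; omega⟩, Or.inl rfl, fun w h => Or.inl (hw w h)⟩
      · push Not at h2
        exact ⟨⟨0, by omega⟩, ⟨1, by omega⟩, Or.inl rfl, fun w h => absurd (h2 w) h⟩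
  have h1 : ∑ v : Fin n, wt n v ≤ ∑ v : Fin n, (c v * wt n v + (if v = a then wt n a else 0) +
      (if v = b then wt n b else 0)) := by
    refine sum_le_sum (fun v _ => ?_)
    by_cases hv : v ∈ U
    · have := Nat.le_mul_of_pos_left (wt n v) (hc v hv)
      omega
    · rcases hK v hv with rfl | rfl
      · simp only [if_true]; omega
      · simp only [if_true]; omega
  simp only [sum_add_distrib, sum_ite_eq', mem_univ, if_true] at h1
  have ha := a.2
  have hb := b.2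
  have mono : ∀ i j, i ≤ j → 2 ^ i ≤ 2 ^ j := fun i j h => Nat.pow_le_pow_right (by omega) h
  unfold conj
  split_ifs with h
  · obtain ⟨k, rfl⟩ : ∃ k, n = k + 1 + 0 + (k + 1) := ⟨n / 2 - 1, by omega⟩
    have h2 := wt_total (k + 1) 0 (by omega)
    rw [show (k + 1 + 0 + (k + 1)) / 2 = k + 1 by omega, Nat.add_sub_cancel]
    have h4 : wt (k + 1 + 0 + (k + 1)) a + wt (k + 1 + 0 + (k + 1)) b ≤ 2 ^ (k + 1) + 2 ^ k := by
      unfold wt
      by_cases e : a.val = k + 1
      · exact add_le_add (mono _ _ (by omega)) (mono _ _ (by omega))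
      · rw [add_comm]
        exact add_le_add (mono _ _ (by omega)) (mono _ _ (by omega))
    simp only [add_zero, pow_succ] at *
    omega
  · obtain ⟨k, rfl⟩ : ∃ k, n = k + 1 + k := ⟨n / 2, by omega⟩
    have h2 := wt_total k 1 le_rfl
    rw [show (k + 1 + k) / 2 = k by omega]
    have h4 : wt (k + 1 + k) a + wt (k + 1 + k) b ≤ 2 ^ k + 2 ^ k := by
      unfold wt
      exact add_le_add (mono _ _ (by omega)) (mono _ _ (by omega))
    simp only [pow_succ] at *
    omega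

theorem result (n : ℕ) (hn : 3 ≤ n) : IsLeast {t | Suffices (cycleGraph n) t} (conj n) := by
  refine ⟨upper n hn, fun t ht => ?_⟩
  obtain ⟨c', h1, U, hU, hc⟩ := ht (sg ⟨0, by omega⟩ t) (by simp [sg_apply])
  have h2 : ∑ v, c' v * wt n v ≤ ∑ v : Fin n, sg (⟨0, by omega⟩ : Fin n) t v * wt n v := by
    clear hc
    induction h1 with
    | refl => exact le_rfl
    | tail _ h ih => exact (pot_move hn h).trans ih
  have h3 := hub_wt hn hU c' hc
  simp only [sg_apply, ite_mul, zero_mul, sum_ite_eq', mem_univ, if_true, wt, Nat.zero_min,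
    pow_zero, mul_one] at h2
  exact h3.trans h2

end Pool.Agent.Results.MP_7e79aa_co.Yes
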